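import Pool.Agent.Q271.KV.Hybrid

set_option autoImplicit false

/-! # MP_22b8ff_nt: hybrids of Kronecker and van der Corput sequences, `α ∈ Bad_p` -/

namespace Pool.Agent.Results.MP_22b8ff_nt.LowDiscrepancy

/-- `‖t‖`, the distance from `t` to the nearest integer. -/
noncomputable def distInt (t : ℝ) : ℝ := |t - round t|

/-- `Bad_p`: the real numbers `α` for which the infimum of `q |q|_p ‖q α‖` over all integers
`q ≥ 1` is positive. -/
def Bad (p : ℕ) : Set ℝ :=
  {α | 0 < sInf {y : ℝ | ∃ q : ℕ, 1 ≤ q ∧ y = q * (padicNorm p q : ℝ) * distInt (q * α)}}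

/-- The van der Corput sequence in base `p`: `φ_p(n) = ∑ a_i p ^ (-i-1)` for `n = ∑ a_i p ^ i`
with the digits `a_i = ⌊n / p ^ i⌋ mod p`. -/
noncomputable def vdc (p n : ℕ) : ℝ := ∑' i : ℕ, ((n / p ^ i % p : ℕ) : ℝ) / (p:ℝ) ^ (i + 1)

/-- The hybrid sequence `H_n = ({n α}, φ_p(n))`. -/
noncomputable def H (α : ℝ) (p n : ℕ) : ℝ × ℝ := (Int.fract (n * α), vdc p n)

open Classical in
/-- The discrepancy: the supremum over `0 ≤ a, b ≤ 1` of
`|#{0 ≤ n < N : H_n ∈ [0, a) × [0, b)} / N - a b|`. -/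
noncomputable def D (α : ℝ) (p N : ℕ) : ℝ :=
  sSup {y : ℝ | ∃ a b : ℝ, 0 ≤ a ∧ a ≤ 1 ∧ 0 ≤ b ∧ b ≤ 1 ∧
    y = |(1 / (N:ℝ)) * ((Finset.range N).filter
      (fun n => H α p n ∈ Set.Ico 0 a ×ˢ Set.Ico 0 b)).card - a * b|}

/-- **Full answer to Q1**: for every prime `p` and every `α ∈ Bad_p` the hybrid sequence is low
discrepancy, `D_N = O((log N)² / N)`. -/
theorem result (p : ℕ) (hp : p.Prime) (α : ℝ) (hα : α ∈ Bad p) :
    (fun N : ℕ => D α p N) =O[Filter.atTop] (fun N : ℕ => (Real.log N) ^ 2 / N) := by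
  classical
  set S : Set ℝ := {y : ℝ | ∃ q : ℕ, 1 ≤ q ∧ y = q * (padicNorm p q : ℝ) * distInt (q * α)}
    with hS
  set c : ℝ := sInf S with hc
  have hcpos : 0 < c := hα
  have hbdd : BddBelow S := by
    refine ⟨0, ?_⟩
    rintro _ ⟨q, -, rfl⟩
    have : (0:ℝ) ≤ (padicNorm p q : ℝ) := by exact_mod_cast padicNorm.nonneg _
    unfold distInt
    positivity
  have hp0 : (0:ℝ) < p := by exact_mod_cast hp.pos
  have key : ∀ k q : ℕ, 1 ≤ q → c ≤ q * Q271.KV.nrm (q * (p ^ k * α)) := by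
    intro k q hq
    have h1 : c ≤ ((q * p ^ k : ℕ) : ℝ) * (padicNorm p ((q * p ^ k : ℕ) : ℚ) : ℝ) *
        distInt (((q * p ^ k : ℕ) : ℝ) * α) :=
      csInf_le hbdd ⟨q * p ^ k, Nat.mul_pos hq (pow_pos hp.pos k), rfl⟩
    have : Fact p.Prime := ⟨hp⟩
    have h2 : padicNorm p ((q * p ^ k : ℕ) : ℚ) ≤ ((p:ℚ) ^ k)⁻¹ := by
      push_cast
      have e2 : padicNorm p ((p:ℚ) ^ k) = ((p:ℚ) ^ k)⁻¹ := by
        clear h1
        induction k with
        | zero => simp
        | succ k ih =>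
          rw [pow_succ, padicNorm.mul, ih, padicNorm.padicNorm_p_of_prime, mul_inv]
      rw [padicNorm.mul, e2]
      have h3 : padicNorm p (q:ℚ) ≤ 1 := by exact_mod_cast padicNorm.of_nat (p := p) q
      have h4 : (0:ℚ) ≤ ((p:ℚ) ^ k)⁻¹ := by positivity
      nlinarith
    have h2' : (padicNorm p ((q * p ^ k : ℕ) : ℚ) : ℝ) ≤ ((p:ℝ) ^ k)⁻¹ := by
      have h6 : ((padicNorm p ((q * p ^ k : ℕ) : ℚ) : ℚ) : ℝ) ≤ ((((p:ℚ) ^ k)⁻¹ : ℚ) : ℝ) :=
        Rat.cast_le.2 h2
      refine h6.trans (le_of_eq ?_)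
      push_cast
      rfl
    refine h1.trans ?_
    have e3 : ((q * p ^ k : ℕ) : ℝ) * α = q * (p ^ k * α) := by push_cast; ring
    rw [e3]
    have h5 : 0 ≤ distInt (q * (p ^ k * α)) := abs_nonneg _
    calc ((q * p ^ k : ℕ) : ℝ) * (padicNorm p ((q * p ^ k : ℕ) : ℚ) : ℝ) * distInt (q * (p ^ k * α))
        ≤ ((q * p ^ k : ℕ) : ℝ) * ((p:ℝ) ^ k)⁻¹ * distInt (q * (p ^ k * α)) := by gcongr
      _ = q * distInt (q * (p ^ k * α)) := by
        push_cast
        field_simp
      _ = q * Q271.KV.nrm (q * (p ^ k * α)) := rfl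
  have hc1 : c < 1 := by
    have h1 := key 0 1 le_rfl
    simp only [Nat.cast_one, pow_zero, one_mul] at h1
    have h2 : Q271.KV.nrm α ≤ 1 / 2 := abs_sub_round α
    linarith
  set A : ℝ := 3 * p / c ^ 2 + p + 1 with hA
  have hApos : 0 < A := by positivity
  have hbound : ∀ N : ℕ, 2 ≤ N → |D α p N| ≤ (100 * A) * |(Real.log N) ^ 2 / N| := by
    intro N hN
    have hNr : (2:ℝ) ≤ N := by exact_mod_cast hN
    have hlog : 1 / 2 ≤ Real.log N := by
      have h1 : Real.log 2 ≤ Real.log N := Real.log_le_log (by norm_num) hNr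
      have := Real.log_two_gt_d9
      linarith
    have h0 : 0 ≤ D α p N := by
      apply Real.sSup_nonneg
      rintro _ ⟨a, b, -, -, -, -, rfl⟩
      exact abs_nonneg _
    have h2 : D α p N ≤ A * (1 + Real.log N) * (1 + 4 * Real.log N) / N := by
      apply csSup_le
      · exact ⟨_, 0, 0, le_rfl, zero_le_one, le_rfl, zero_le_one, rfl⟩
      · rintro _ ⟨a, b, ha0, ha1, hb0, hb1, rfl⟩
        have h3 := Q271.KV.cnt2_bound p hp.two_le c hcpos hc1 a ha0 ha1 N α 0 b
          (fun k q hq => key k q hq) hb0 hb1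
        have e : ((Finset.range N).filter
            (fun n => H α p n ∈ Set.Ico 0 a ×ˢ Set.Ico 0 b)).card =
            Q271.KV.cnt2 p α 0 a b N := by
          unfold Q271.KV.cnt2
          congr 1
          apply Finset.filter_congr
          intro n _
          rw [Set.mem_prod, Set.mem_Ico, Set.mem_Ico, add_zero]
          constructor
          · exact fun h => ⟨h.1.2, h.2.2⟩
          · exact fun h => ⟨⟨Int.fract_nonneg _, h.1⟩,
              ⟨(Q271.KV.phi_mem p hp.two_le n).1, h.2⟩⟩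
        rw [e, le_div_iff₀ (by linarith)]
        have e2 : |1 / (N:ℝ) * (Q271.KV.cnt2 p α 0 a b N : ℝ) - a * b| * N =
            |(Q271.KV.cnt2 p α 0 a b N : ℝ) - a * b * N| := by
          rw [← abs_of_pos (by linarith : (0:ℝ) < N), ← abs_mul,
            abs_of_pos (by linarith : (0:ℝ) < N)]
          congr 1
          field_simp
        rw [e2]
        exact h3
    rw [abs_of_nonneg h0, abs_of_nonneg (by positivity)]
    refine h2.trans ?_
    rw [← mul_div_assoc]
    apply div_le_div_of_nonneg_right _ (by linarith)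
    set l := Real.log N with hl
    calc A * (1 + l) * (1 + 4 * l) ≤ A * (3 * l) * (6 * l) := by
          apply mul_le_mul _ _ (by linarith) (by positivity)
          · apply mul_le_mul_of_nonneg_left _ hApos.le
            linarith
          · linarith
      _ ≤ 100 * A * l ^ 2 := by nlinarith [mul_pos hApos (by positivity : 0 < l ^ 2)]
  refine Asymptotics.IsBigO.of_bound (100 * A) ?_
  filter_upwards [Filter.eventually_ge_atTop 2] with N hN
  rw [Real.norm_eq_abs, Real.norm_eq_abs]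
  exact hbound N hN

end Pool.Agent.Results.MP_22b8ff_nt.LowDiscrepancy
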